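import Pool.Agent.helper41.HFE.SpecD

/-!
# Row `hfe:G00` (MP_3221a1_ag): the curve `x = y^b`
-/

set_option autoImplicit false

open Polynomial Module Pool.Agent.HFN

namespace Pool.Agent.HFE

noncomputable section

theorem G00_sw (b : ℕ) : sw (g0 b) = X - C (X ^ b) := by
  unfold g0 sw
  rw [map_sub, Polynomial.Bivariate.swap_C, map_pow, Polynomial.Bivariate.swap_Y, Polynomial.map_X, ← map_pow]

theorem G00 : G00_stmt := by
  intro b hb
  have h1 : Irreducible (X - C (X ^ b) : AA) := irreducible_X_sub_C _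
  refine ⟨?_, ?_, ?_, ?_⟩
  · have h2 : Irreducible (sw (g0 b)) := by
      rw [G00_sw]
      exact h1
    exact (MulEquiv.irreducible_iff sw).1 h2
  · unfold dX
    rw [G00_sw]
    exact natDegree_X_sub_C _
  · unfold dY g0
    rw [natDegree_sub, natDegree_sub_C, natDegree_X_pow]
  · intro z
    unfold g0
    rw [ev_sub, ev_C, ev_pow, ev_X, eval_X]

end

end Pool.Agent.HFE
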